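import Pool.Agent.Helper992.Nh

set_option autoImplicit false
open scoped LinearAlgebra.Projectivization Classical

namespace Pool.Agent.Results.MP_8b6d0b_co.LowerBound

/-- The non-hitting index `u₀(D)` of a set `D` of points of `PG(2, F)`: the number of lines
containing no point of `D`. Points are elements of `ℙ F (Fin 3 → F)`; the line with coordinates
`ℓ = [a : b : c]` consists of the points `(x : y : z)` with `a x + b y + c z = 0`. -/
noncomputable def u0 (F : Type*) [Field F] [Fintype F] (D : Finset (ℙ F (Fin 3 → F))) : ℕ :=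
  Nat.card {ℓ : ℙ F (Fin 3 → F) // ∀ P ∈ D, ¬ P.orthogonal ℓ}

/-- `U(q)`: the maximum of `u₀(S)` over the `(q + 1)`-sets `S` with `u₀(S) < q (q - 1) / 2`. -/
noncomputable def U (F : Type*) [Field F] [Fintype F] : ℕ :=
  sSup {m : ℕ | ∃ S : Finset (ℙ F (Fin 3 → F)), S.card = Fintype.card F + 1 ∧ u0 F S = m ∧
    m < Fintype.card F * (Fintype.card F - 1) / 2}

/-- For every finite field `F` of odd order `q ≥ 5` there is a `(q + 1)`-set of `PG(2, q)` with
non-hitting index exactly `(q - 1)² / 2 + 1`, and `(q - 1)² / 2 + 1 ≤ U(q)`; moreover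
`U(5) = 9`. -/
theorem result (F : Type*) [Field F] [Fintype F] (hodd : Odd (Fintype.card F))
    (h5 : 5 ≤ Fintype.card F) :
    (∃ S : Finset (ℙ F (Fin 3 → F)), S.card = Fintype.card F + 1 ∧
      u0 F S = (Fintype.card F - 1) ^ 2 / 2 + 1) ∧
    (Fintype.card F - 1) ^ 2 / 2 + 1 ≤ U F ∧
    (Fintype.card F = 5 → U F = 9) := by
  have hchar : ringChar F ≠ 2 := by
    intro h
    have := FiniteField.even_card_iff_char_two.mp h
    rw [← Nat.even_iff] at this
    exact (Nat.not_even_iff_odd.mpr hodd) this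
  have hu : u0 F (Pool.Agent.Helper992.Nh.S) = (Fintype.card F - 1) ^ 2 / 2 + 1 := by
    unfold u0
    rw [← Pool.Agent.Helper992.Nh.card_T hchar,
      ← Finset.card_image_of_injective _ Pool.Agent.Helper992.Nh.ln_inj]
    exact Nat.subtype_card _ (fun ℓ => (Pool.Agent.Helper992.Nh.missed_iff hchar ℓ).symm)
  have hlt : (Fintype.card F - 1) ^ 2 / 2 + 1 < Fintype.card F * (Fintype.card F - 1) / 2 := by
    obtain ⟨a, ha⟩ := hodd
    rw [ha]
    have e1 : (2 * a + 1 - 1) ^ 2 / 2 = 2 * a * a := by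
      have : (2 * a + 1 - 1) ^ 2 = 2 * (2 * a * a) := by
        rw [Nat.add_sub_cancel]; ring
      rw [this, Nat.mul_div_cancel_left _ (by norm_num)]
    have e2 : (2 * a + 1) * (2 * a + 1 - 1) / 2 = (2 * a + 1) * a := by
      have : (2 * a + 1) * (2 * a + 1 - 1) = 2 * ((2 * a + 1) * a) := by
        rw [Nat.add_sub_cancel]; ring
      rw [this, Nat.mul_div_cancel_left _ (by norm_num)]
    rw [e1, e2]
    have : 2 ≤ a := by omega
    nlinarith
  have hbdd : BddAbove {m : ℕ | ∃ S : Finset (ℙ F (Fin 3 → F)), S.card = Fintype.card F + 1 ∧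
      u0 F S = m ∧ m < Fintype.card F * (Fintype.card F - 1) / 2} := by
    refine ⟨Fintype.card F * (Fintype.card F - 1) / 2, ?_⟩
    rintro m ⟨_, _, _, hm⟩
    exact hm.le
  have hmem : (Fintype.card F - 1) ^ 2 / 2 + 1 ∈ {m : ℕ | ∃ S : Finset (ℙ F (Fin 3 → F)),
      S.card = Fintype.card F + 1 ∧ u0 F S = m ∧
        m < Fintype.card F * (Fintype.card F - 1) / 2} :=
    ⟨Pool.Agent.Helper992.Nh.S, Pool.Agent.Helper992.Nh.card_S, hu, hlt⟩
  have hle : (Fintype.card F - 1) ^ 2 / 2 + 1 ≤ U F := le_csSup hbdd hmem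
  refine ⟨⟨_, Pool.Agent.Helper992.Nh.card_S, hu⟩, hle, ?_⟩
  intro hq
  have h1 : U F < Fintype.card F * (Fintype.card F - 1) / 2 := by
    obtain ⟨_, _, _, h⟩ := Nat.sSup_mem ⟨_, hmem⟩ hbdd
    exact h
  rw [hq] at h1 hle
  norm_num at h1 hle
  omega

end Pool.Agent.Results.MP_8b6d0b_co.LowerBound
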