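import Mathlib

set_option autoImplicit false

/-!
# The second largest non-hitting index of a `(q+1)`-set of `PG(2,q)`, `q` odd

`PG(2,q)` in its standard coordinates: the points are the affine points `(x,y)`, the point at infinity of the
lines of slope `m` (for each `m`) and the point at infinity of the vertical lines; the lines are `y = a x + b`,
`x = c` and the line at infinity.

For `q ≥ 5` odd the `q - 1` points `(x, x²)`, `x ≠ 1`, of a parabola together with the points at infinity of the
vertical and of the horizontal lines form a `(q+1)`-set which is missed by exactly `(q-1)²/2 + 1` lines. Hence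
`U(q) ≥ (q-1)²/2 + 1`, and `U(5) = 9`.
-/

open Finset

namespace Pool.Agent.Results.MP_8b6d0b_co.LowerBoundPlusOne

set_option linter.unusedSectionVars false

variable (F : Type) [Field F] [Fintype F]

/-- The points of `PG(2,F)`: `inl (x, y)` is an affine point, `inr (some m)` is the point at infinity of the lines
of slope `m`, `inr none` is the point at infinity of the vertical lines. -/
abbrev Point : Type := (F × F) ⊕ Option F

/-- The lines of `PG(2,F)`: `inl (a, b)` is the line `y = a x + b`, `inr (some c)` is the line `x = c`,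
`inr none` is the line at infinity. -/
abbrev Line : Type := (F × F) ⊕ Option F

variable {F}

/-- Incidence. -/
def On : Point F → Line F → Prop
  | .inl (x, y), .inl (a, b) => y = a * x + b
  | .inl (x, _), .inr (some c) => x = c
  | .inl _, .inr none => False
  | .inr (some m), .inl (a, _) => m = a
  | .inr (some _), .inr (some _) => False
  | .inr (some _), .inr none => True
  | .inr none, .inl _ => False
  | .inr none, .inr (some _) => True
  | .inr none, .inr none => True

open Classical in
/-- The non-hitting index: the number of lines which contain no point of `S`. -/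
noncomputable def u0 (S : Finset (Point F)) : ℕ :=
  ((univ : Finset (Line F)).filter (fun l => ∀ p ∈ S, ¬ On p l)).card

variable (F) in
/-- `U(q)`: the largest value below `q (q - 1) / 2` of the non-hitting index of a `(q+1)`-set, `q = |F|`. -/
noncomputable def U : ℕ :=
  sSup {u : ℕ | ∃ S : Finset (Point F), S.card = Fintype.card F + 1 ∧ u0 S = u ∧
    2 * u < Fintype.card F * (Fintype.card F - 1)}

open Classical in
lemma card_nonsq (hF : ringChar F ≠ 2) :
    2 * ((univ : Finset F).filter (fun c => ¬ IsSquare c)).card + 1 = Fintype.card F := by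
  have h := quadraticChar_sum_zero hF
  have h1 : ∑ a : F, quadraticChar F a =
      (((univ : Finset F).filter (fun c => c ≠ 0 ∧ IsSquare c)).card : ℤ) -
        ((univ : Finset F).filter (fun c => ¬ IsSquare c)).card := by
    rw [card_filter, card_filter]
    push_cast
    rw [← sum_sub_distrib]
    refine sum_congr rfl fun a _ => ?_
    by_cases h0 : a = 0
    · subst h0; simp
    · by_cases hs : IsSquare a
      · rw [(quadraticChar_one_iff_isSquare h0).2 hs]; simp [h0, hs]
      · rw [quadraticChar_neg_one_iff_not_isSquare.2 hs]; simp [h0, hs]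
  have h2 : (univ : Finset F) = ((univ : Finset F).filter (fun c => c ≠ 0 ∧ IsSquare c)) ∪
      (((univ : Finset F).filter (fun c => ¬ IsSquare c)) ∪ {0}) := by
    ext a
    simp only [mem_univ, mem_union, mem_filter, true_and, mem_singleton, true_iff]
    tauto
  have h3 : Fintype.card F = ((univ : Finset F).filter (fun c => c ≠ 0 ∧ IsSquare c)).card +
      (((univ : Finset F).filter (fun c => ¬ IsSquare c)).card + 1) := by
    rw [← card_univ, h2, card_union_of_disjoint, card_union_of_disjoint, card_singleton, ← h2]
    · rw [disjoint_singleton_right]; simp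
    · rw [disjoint_union_right, disjoint_filter, disjoint_singleton_right]
      refine ⟨fun a _ h h' => h' h.2, by simp⟩
  rw [h] at h1
  omega

open Classical in
/-- The set: the points `(x, x²)`, `x ≠ 1`, and the points at infinity of the vertical and the horizontal lines. -/
noncomputable def SS (F : Type) [Field F] [Fintype F] : Finset (Point F) :=
  ((univ : Finset F).erase 1).image (fun x => (Sum.inl (x, x ^ 2) : Point F)) ∪
    {Sum.inr none, Sum.inr (some 0)}

lemma card_SS : (SS F).card = Fintype.card F + 1 := by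
  classical
  have hq : 0 < Fintype.card F := Fintype.card_pos
  unfold SS
  rw [card_union_of_disjoint, card_image_of_injective, card_erase_of_mem (mem_univ _), card_univ,
    card_pair (by simp)]
  · omega
  · intro a b hab
    simpa using (congrArg (fun p : Point F => Sum.elim (fun z => z.1) (fun _ => (0 : F)) p) hab)
  · rw [disjoint_left]
    intro p hp hp'
    simp only [mem_image, mem_insert, mem_singleton] at hp hp'
    obtain ⟨x, -, rfl⟩ := hp
    rcases hp' with h | h <;> exact absurd h (by simp)

lemma key (hF : ringChar F ≠ 2) (a b : F) :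
    (∀ x : F, x ≠ 1 → x ^ 2 ≠ a * x + b) ↔ (¬ IsSquare (a ^ 2 + 4 * b) ∨ (a = 2 ∧ b = -1)) := by
  have h2 : (2 : F) ≠ 0 := Ring.two_ne_zero hF
  constructor
  · intro h
    by_contra hc
    push Not at hc
    obtain ⟨⟨s, hs⟩, hc2⟩ := hc
    have e1 : ((a + s) / 2) ^ 2 = a * ((a + s) / 2) + b := by
      field_simp
      linear_combination (-1 : F) * hs
    have e2 : ((a - s) / 2) ^ 2 = a * ((a - s) / 2) + b := by
      field_simp
      linear_combination (-1 : F) * hs
    have f1 : (a + s) / 2 = 1 := by by_contra hh; exact h _ hh e1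
    have f2 : (a - s) / 2 = 1 := by by_contra hh; exact h _ hh e2
    rw [f1] at e1
    rw [div_eq_iff h2] at f1 f2
    have g1 : a = 2 := by
      have : 2 * a = 2 * 2 := by linear_combination f1 + f2
      exact mul_left_cancel₀ h2 this
    refine hc2 g1 ?_
    rw [g1] at e1
    linear_combination -e1
  · rintro (h | ⟨rfl, rfl⟩) x hx he
    · exact h ⟨2 * x - a, by linear_combination (-4 : F) * he⟩
    · have : (x - 1) ^ 2 = 0 := by linear_combination he
      exact hx (sub_eq_zero.1 (pow_eq_zero_iff (two_ne_zero)|>.1 this))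

open Classical in
lemma card_pairs (hF : ringChar F ≠ 2) :
    ((univ : Finset (F × F)).filter (fun p => p.1 ≠ 0 ∧
      (¬ IsSquare (p.1 ^ 2 + 4 * p.2) ∨ (p.1 = 2 ∧ p.2 = -1)))).card =
      (Fintype.card F - 1) * ((univ : Finset F).filter (fun c => ¬ IsSquare c)).card + 1 := by
  have h2 : (2 : F) ≠ 0 := Ring.two_ne_zero hF
  have h4 : (4 : F) ≠ 0 := by
    have : (4 : F) = 2 * 2 := by norm_num
    rw [this]; exact mul_ne_zero h2 h2
  have hQ : ((univ : Finset (F × F)).filter (fun p => p.1 ≠ 0 ∧
      ¬ IsSquare (p.1 ^ 2 + 4 * p.2))).card =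
      (Fintype.card F - 1) * ((univ : Finset F).filter (fun c => ¬ IsSquare c)).card := by
    have : (Fintype.card F - 1) * ((univ : Finset F).filter (fun c => ¬ IsSquare c)).card =
        (((univ : Finset F).erase 0) ×ˢ ((univ : Finset F).filter (fun c => ¬ IsSquare c))).card := by
      rw [card_product, card_erase_of_mem (mem_univ _), card_univ]
    rw [this]
    refine card_bij (fun p _ => (p.1, p.1 ^ 2 + 4 * p.2)) ?_ ?_ ?_
    · rintro ⟨a, b⟩ h
      simp only [mem_filter, mem_univ, true_and] at h
      simp only [mem_product, mem_erase, mem_filter, mem_univ, true_and, and_true]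
      exact h
    · rintro ⟨a, b⟩ _ ⟨a', b'⟩ _ h
      simp only [Prod.mk.injEq] at h
      obtain ⟨rfl, h⟩ := h
      have : 4 * b = 4 * b' := add_left_cancel h
      rw [mul_left_cancel₀ h4 this]
    · rintro ⟨a, c⟩ h
      simp only [mem_product, mem_erase, mem_filter, mem_univ, true_and, and_true] at h
      have e : a ^ 2 + 4 * ((c - a ^ 2) / 4) = c := by
        rw [mul_div_cancel₀ _ h4]; ring
      refine ⟨(a, (c - a ^ 2) / 4), ?_, ?_⟩
      · simp only [mem_filter, mem_univ, true_and]
        rw [e]; exact h
      · simp only [Prod.mk.injEq, true_and]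
        exact e
  have hU : ((univ : Finset (F × F)).filter (fun p => p.1 ≠ 0 ∧
      (¬ IsSquare (p.1 ^ 2 + 4 * p.2) ∨ (p.1 = 2 ∧ p.2 = -1)))) =
      ((univ : Finset (F × F)).filter (fun p => p.1 ≠ 0 ∧ ¬ IsSquare (p.1 ^ 2 + 4 * p.2))) ∪
      {(2, -1)} := by
    ext ⟨a, b⟩
    simp only [mem_filter, mem_univ, true_and, mem_union, mem_singleton, Prod.mk.injEq]
    constructor
    · rintro ⟨h, h' | h'⟩
      · exact Or.inl ⟨h, h'⟩
      · exact Or.inr h'
    · rintro (⟨h, h'⟩ | ⟨rfl, rfl⟩)
      · exact ⟨h, Or.inl h'⟩
      · exact ⟨h2, Or.inr ⟨rfl, rfl⟩⟩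
  rw [hU, card_union_of_disjoint, hQ, card_singleton]
  rw [disjoint_singleton_right, mem_filter]
  rintro ⟨-, -, h⟩
  apply h
  refine ⟨0, ?_⟩
  norm_num

lemma u0_SS (hF : ringChar F ≠ 2) : 2 * u0 (SS F) = (Fintype.card F - 1) ^ 2 + 2 := by
  classical
  have h1 : u0 (SS F) = (((univ : Finset (F × F)).filter (fun p => p.1 ≠ 0 ∧
      (¬ IsSquare (p.1 ^ 2 + 4 * p.2) ∨ (p.1 = 2 ∧ p.2 = -1)))).map
        ⟨(Sum.inl : F × F → Line F), Sum.inl_injective⟩).card := by
    unfold u0
    congr 1
    ext l
    simp only [mem_filter, mem_univ, true_and, mem_map, Function.Embedding.coeFn_mk]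
    rcases l with ⟨a, b⟩ | (_ | c)
    · constructor
      · intro h
        refine ⟨(a, b), ⟨?_, ?_⟩, rfl⟩
        · intro ha
          have := h (Sum.inr (some 0)) (by simp [SS])
          exact this ha.symm
        · rw [← key hF]
          intro x hx he
          exact h (Sum.inl (x, x ^ 2)) (by simp [SS, hx]) he
      · rintro ⟨⟨a', b'⟩, ⟨ha, hab⟩, he⟩
        obtain ⟨rfl, rfl⟩ := Prod.mk.injEq _ _ _ _ ▸ Sum.inl.inj he
        rw [← key hF] at hab
        intro p hp
        simp only [SS, mem_union, mem_image, mem_erase, mem_univ, and_true, mem_insert,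
          mem_singleton] at hp
        rcases hp with ⟨x, hx, rfl⟩ | rfl | rfl
        · exact hab x hx
        · exact fun h => h
        · exact fun h => ha h.symm
    · constructor
      · intro h
        exact absurd trivial (h (Sum.inr none) (by simp [SS]))
      · rintro ⟨_, _, he⟩
        exact absurd he (by simp)
    · constructor
      · intro h
        exact absurd trivial (h (Sum.inr none) (by simp [SS]))
      · rintro ⟨_, _, he⟩
        exact absurd he (by simp)
  have h2 := card_nonsq hF
  rw [h1, card_map, card_pairs hF]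
  have h3 : Fintype.card F - 1 = 2 * ((univ : Finset F).filter (fun c => ¬ IsSquare c)).card := by
    omega
  rw [h3]
  ring

/-- For every finite field `F` with `q ≥ 5` elements, `q` odd: `U(q) ≥ (q - 1)² / 2 + 1`; moreover `U(5) = 9`. -/
theorem result (F : Type) [Field F] [Fintype F] (hodd : Odd (Fintype.card F))
    (h5 : 5 ≤ Fintype.card F) :
    (Fintype.card F - 1) ^ 2 + 2 ≤ 2 * U F ∧ (Fintype.card F = 5 → U F = 9) := by
  have hF : ringChar F ≠ 2 := by
    intro h
    rw [FiniteField.even_card_iff_char_two] at h
    rcases hodd with ⟨k, hk⟩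
    omega
  have hbdd : BddAbove {u : ℕ | ∃ S : Finset (Point F), S.card = Fintype.card F + 1 ∧ u0 S = u ∧
      2 * u < Fintype.card F * (Fintype.card F - 1)} :=
    ⟨Fintype.card F * (Fintype.card F - 1), fun u ⟨_, _, _, hu⟩ => by omega⟩
  have hmem : u0 (SS F) ∈ {u : ℕ | ∃ S : Finset (Point F), S.card = Fintype.card F + 1 ∧ u0 S = u ∧
      2 * u < Fintype.card F * (Fintype.card F - 1)} := by
    refine ⟨SS F, card_SS, rfl, ?_⟩
    rw [u0_SS hF]
    obtain ⟨m, hm⟩ : ∃ m, Fintype.card F = m + 5 := ⟨Fintype.card F - 5, by omega⟩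
    rw [hm]
    simp only [show m + 5 - 1 = m + 4 by omega]
    nlinarith
  have hle : u0 (SS F) ≤ U F := le_csSup hbdd hmem
  have h1 := u0_SS hF
  refine ⟨by omega, fun h => ?_⟩
  have hne : {u : ℕ | ∃ S : Finset (Point F), S.card = Fintype.card F + 1 ∧ u0 S = u ∧
      2 * u < Fintype.card F * (Fintype.card F - 1)}.Nonempty := ⟨_, hmem⟩
  have h2 : 2 * U F < Fintype.card F * (Fintype.card F - 1) := by
    obtain ⟨_, _, _, h⟩ := Nat.sSup_mem hne hbdd
    exact h
  rw [h] at h1 h2
  norm_num at h1 h2
  omega

end Pool.Agent.Results.MP_8b6d0b_co.LowerBoundPlusOne
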